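import Pool.Agent.H67.BB.Gap

set_option autoImplicit false

/-!
# The zeros of all Dirichlet L-functions do not decide Andrica's conjecture

On the Riemann hypothesis the gaps between consecutive primes are `O(√p log p)` (Cramér 1920), so the differences of
the square roots are `O(log p)`.  We show that nothing better, in particular not Andrica's inequality, follows
from the position of the zeros: for every `g(n) = o(log n)`, for instance a large constant, there is a system of
generalised primes (in the integers) for which `√b - √a ≥ g(a)` for infinitely many pairs `a < b` of consecutive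
elements, and which is very close to the primes.  Only `ε √x` of the primes up to `x` are moved, by at most
`ε √p log p`, each modulus sees only finitely many changes of residues, and for every Dirichlet character the
Euler product is the Dirichlet L-function times a factor `G`, holomorphic and without zeros in `Re s > 0`, with
`|G - 1| ≤ ε` in the half plane `Re s ≥ 1 / 2`, the critical line included; the number of the generalised
integers up to `x` is `ρ x` with an error of at most `(1 + ε) √x`.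

Proof.  For a sparse sequence of `x` the primes in an interval `(x, x + H]`, `H` a small multiple of `√x log x`, are
moved to composite numbers in `(x - H, x]` in the same residue classes modulo `j!`: there are only `O(H / log x)`
of them by the inequality of Brun and Titchmarsh.  The sum of `1 / √p` over the moved primes is small.
-/

namespace Pool.Agent.Results.MP_82fd4a_nt.ZerosAndAndrica

open Filter Topology

/-- `a < b` are consecutive elements of the set `P`. -/
def Consecutive (P : Set ℕ) (a b : ℕ) : Prop := a ∈ P ∧ b ∈ P ∧ a < b ∧ ∀ c ∈ P, ¬ (a < c ∧ c < b)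

/-- The generalised integer of `n`: in the factorisation of `n` every prime `p` is replaced by `φ p`. -/
noncomputable def generalised (φ : ℕ → ℕ) (n : ℕ) : ℕ := n.factorization.prod fun p k => (φ p) ^ k

/-- Let `g n / log n` tend to `0` and `ε > 0`.  There is a map `φ` on the primes with values `≥ 2` such that
(1) `φ` is injective on the primes, `φ p = p` for all but at most `ε √x` primes `p ≤ x`, for all `x ≥ 0`,
`|φ p - p| ≤ ε √p log p` for all primes `p`, and for each `q ≥ 1`: `φ p ≡ p` modulo `q` for all but finitely many `p`;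
(2) for every Dirichlet character `χ` the Euler product over the `φ p` is `L(s, χ) G(s)` for `Re s > 1`, where `G` is
holomorphic without zeros in `Re s > 0`, and `|G(s) - 1| ≤ ε` for `Re s ≥ 1 / 2`;
(3) there is `ρ` with `|ρ - 1| ≤ ε` such that for all `x ≥ 0` the number of the generalised integers up to `x`, that
is of the `n ≥ 1` with `generalised φ n ≤ x`, differs from `ρ x` by at most `(1 + ε) √x`;
(4) for infinitely many `a` there is `b` such that `a` and `b` are consecutive elements of the set of the values `φ p`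
and `√b - √a ≥ g a`. -/
theorem result (g : ℕ → ℝ) (hg : Tendsto (fun n : ℕ => g n / Real.log n) atTop (𝓝 0)) (ε : ℝ) (hε : 0 < ε) :
    ∃ φ : ℕ → ℕ,
    (Set.InjOn φ {p | p.Prime} ∧ (∀ p : ℕ, p.Prime → 2 ≤ φ p) ∧
      (∀ x : ℝ, 0 ≤ x → ({p : ℕ | p.Prime ∧ (p : ℝ) ≤ x ∧ φ p ≠ p}.ncard : ℝ) ≤ ε * √x) ∧
      (∀ p : ℕ, p.Prime → |(φ p : ℝ) - p| ≤ ε * (√(p : ℝ) * Real.log p)) ∧
      ∀ q : ℕ, 0 < q → {p : ℕ | p.Prime ∧ ¬ φ p ≡ p [MOD q]}.Finite) ∧
    (∀ (q : ℕ) [NeZero q] (χ : DirichletCharacter ℂ q), ∃ G : ℂ → ℂ,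
      DifferentiableOn ℂ G {s : ℂ | 0 < s.re} ∧ (∀ s : ℂ, 0 < s.re → G s ≠ 0) ∧
      (∀ s : ℂ, 1 / 2 ≤ s.re → ‖G s - 1‖ ≤ ε) ∧
      ∀ s : ℂ, 1 < s.re → HasProd (fun p : Nat.Primes => (1 - χ (φ p) * (φ p : ℂ) ^ (-s))⁻¹)
        (χ.LFunction s * G s)) ∧
    (∃ ρ : ℝ, |ρ - 1| ≤ ε ∧ ∀ x : ℝ, 0 ≤ x →
      |({n : ℕ | n ≠ 0 ∧ (generalised φ n : ℝ) ≤ x}.ncard : ℝ) - ρ * x| ≤ (1 + ε) * √x) ∧
    {a : ℕ | ∃ b : ℕ, Consecutive (φ '' {p | p.Prime}) a b ∧ g a ≤ √(b : ℝ) - √(a : ℝ)}.Infinite := by
  obtain ⟨ε', hε', h1, h2, h3, h4⟩ : ∃ ε' : ℝ, 0 < ε' ∧ Real.exp (9 * (6 * ε')) - 1 ≤ ε ∧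
      Real.exp (9 * (6 * ε')) ≤ 1 + ε ∧ 6 * ε' ≤ ε ∧ ε' ≤ ε := by
    have hl := Real.log_pos (by linarith : 1 < 1 + ε)
    have hl2 := Real.log_le_sub_one_of_pos (by linarith : 0 < 1 + ε)
    refine ⟨Real.log (1 + ε) / 54, by positivity, ?_, ?_, by linarith, by linarith⟩
    · have : 9 * (6 * (Real.log (1 + ε) / 54)) = Real.log (1 + ε) := by ring
      rw [this, Real.exp_log (by linarith)]; linarith
    · have : 9 * (6 * (Real.log (1 + ε) / 54)) = Real.log (1 + ε) := by ring
      rw [this, Real.exp_log (by linarith)]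
  -- the target for the gaps
  have hh : ∀ δ : ℝ, 0 < δ → ∀ᶠ n : ℕ in atTop, 2 * |g n| * √(n : ℝ) + g n ^ 2 ≤ δ * (√(n : ℝ) * Real.log n) := by
    intro δ hδ
    have e1 : ∀ᶠ n : ℕ in atTop, |g n / Real.log n| < min (δ / 4) 1 := by
      have := (tendsto_zero_iff_abs_tendsto_zero _).1 hg
      exact this.eventually_lt_const (by positivity)
    have e2 : ∀ᶠ n : ℕ in atTop, (2 / δ) * Real.log n ≤ √(n : ℝ) := by
      have h1 : (fun y : ℝ => Real.log y) =o[atTop] fun y => y ^ (1 / 2 : ℝ) := isLittleO_log_rpow_atTop (by norm_num)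
      have h2 := (h1.comp_tendsto tendsto_natCast_atTop_atTop).bound (show 0 < δ / 2 by positivity)
      filter_upwards [h2, eventually_ge_atTop 1] with n hn hn1
      have hn0 : (1 : ℝ) ≤ n := by exact_mod_cast hn1
      simp only [Function.comp_apply, Real.norm_eq_abs] at hn
      rw [← Real.sqrt_eq_rpow, abs_of_nonneg (Real.log_nonneg hn0), abs_of_nonneg (Real.sqrt_nonneg _)] at hn
      have h3 : 2 / δ * Real.log n ≤ 2 / δ * (δ / 2 * √(n : ℝ)) := by gcongr
      have h4 : 2 / δ * (δ / 2 * √(n : ℝ)) = √(n : ℝ) := by field_simp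
      linarith
    filter_upwards [e1, e2, eventually_ge_atTop 2] with n hn1 hn2 hn3
    have hn0 : (2 : ℝ) ≤ n := by exact_mod_cast hn3
    have hl : 0 < Real.log n := Real.log_pos (by linarith)
    rw [abs_div, abs_of_pos hl, lt_min_iff, div_lt_iff₀ hl, div_lt_iff₀ hl] at hn1
    have hs : 0 ≤ √(n : ℝ) := Real.sqrt_nonneg _
    have h5 : g n ^ 2 ≤ Real.log n * Real.log n := by
      rw [← sq_abs]
      have := abs_nonneg (g n)
      nlinarith [hn1.2]
    have h6 : Real.log n * Real.log n ≤ δ / 2 * (√(n : ℝ) * Real.log n) := by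
      have h7 : Real.log n ≤ δ / 2 * √(n : ℝ) := by
        have h8 : δ / 2 * (2 / δ * Real.log n) = Real.log n := by field_simp
        have h9 : δ / 2 * (2 / δ * Real.log n) ≤ δ / 2 * √(n : ℝ) := by gcongr
        linarith
      calc Real.log n * Real.log n ≤ (δ / 2 * √(n : ℝ)) * Real.log n := by gcongr
        _ = _ := by ring
    have h7 : 2 * |g n| * √(n : ℝ) ≤ δ / 2 * (√(n : ℝ) * Real.log n) := by
      calc 2 * |g n| * √(n : ℝ) ≤ 2 * (δ / 4 * Real.log n) * √(n : ℝ) := by
            gcongr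
            exact hn1.1.le
        _ = _ := by ring
    linarith
  obtain ⟨x, H, ψ, D⟩ := Pool.Agent.H67.BB.exists_data2 ε' hε'
    (fun n => 2 * |g n| * √(n : ℝ) + g n ^ 2) hh
  have hM := D.move hε'
  have hS := D.tsum_le hε'
  have hexp : Real.exp (9 * ∑' r, Pool.Agent.H67.BB.uu (Pool.Agent.H67.BB.phi2 x H ψ) r) ≤
      Real.exp (9 * (6 * ε')) := by
    gcongr
  refine ⟨Pool.Agent.H67.BB.phi2 x H ψ, ⟨D.injOn, fun r hr => D.two hr, fun y hy => ?_, fun r hr => ?_,
    fun q hq => D.fin q hq⟩, fun q _ χ => ?_, ?_, ?_⟩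
  · exact (D.count_moved hε' y hy).trans (mul_le_mul_of_nonneg_right h3 (Real.sqrt_nonneg _))
  · refine (D.disp hε' hr).trans (mul_le_mul_of_nonneg_right h4 ?_)
    have : (1 : ℝ) ≤ r := by exact_mod_cast hr.one_le
    have := Real.log_nonneg this
    positivity
  · obtain ⟨G, hG1, hG2, hG3, hG4⟩ := Pool.Agent.H67.BB.euler hM q χ
    exact ⟨G, hG1, hG2, fun s hs => (hG3 s hs).trans (by linarith), hG4⟩
  · obtain ⟨ρ, hρ, hx⟩ := Pool.Agent.H67.BB.count hM
    refine ⟨ρ, hρ.trans (by linarith), fun y hy0 => (hx y hy0).trans ?_⟩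
    gcongr
    linarith
  · rw [← Set.not_finite] 
    intro hfin
    obtain ⟨N, hN⟩ := hfin.bddAbove
    obtain ⟨a, b, hNa, ha, hb, hab, hc, hgap⟩ := D.exists_pair (N + 1)
    have : a ≤ N := hN ⟨b, ⟨ha, hb, hab, hc⟩, by
      rw [le_sub_iff_add_le]
      apply Real.le_sqrt_of_sq_le
      have h5 : √(a : ℝ) ^ 2 = a := Real.sq_sqrt (Nat.cast_nonneg a)
      have h6 := Real.sqrt_nonneg (a : ℝ)
      have h7 := le_abs_self (g a)
      nlinarith⟩
    omega

end Pool.Agent.Results.MP_82fd4a_nt.ZerosAndAndrica
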